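import Pool.Agent.J4H9.BC.Stm

/-! Project BC: the points of a product. -/

set_option autoImplicit false

open CategoryTheory CategoryTheory.Limits AlgebraicGeometry

namespace Pool.Agent.J4H85.BC

open Pool.Agent.J4H9.BC

/-- points as morphisms over the base -/
noncomputable def ptsEquiv {k : Type} [Field k] (B : Over (Spec (CommRingCat.of k))) (K : Type)
    [Field K] [Algebra k K] :
    Pts B K ≃ (Over.mk (Spec.map (CommRingCat.ofHom (algebraMap k K))) ⟶ B) where
  toFun x := Over.homMk x.1 x.2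
  invFun f := ⟨f.left, Over.w f⟩
  left_inv _ := rfl
  right_inv _ := by ext1; rfl

/-- morphisms to a product -/
noncomputable def prodEquiv {𝒞 : Type*} [Category 𝒞] {S B C X : 𝒞} {p₁ : X ⟶ B} {p₂ : X ⟶ C}
    (hl : IsLimit (BinaryFan.mk p₁ p₂)) : (S ⟶ X) ≃ (S ⟶ B) × (S ⟶ C) where
  toFun f := (f ≫ p₁, f ≫ p₂)
  invFun g := (BinaryFan.IsLimit.lift' hl g.1 g.2).1
  left_inv f := by
    have h := (BinaryFan.IsLimit.lift' hl (f ≫ p₁) (f ≫ p₂)).2
    exact BinaryFan.IsLimit.hom_ext hl h.1 h.2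
  right_inv g := by
    have h := (BinaryFan.IsLimit.lift' hl g.1 g.2).2
    exact Prod.ext h.1 h.2

theorem t_PTS : S_PTS := by
  intro k _ B C X p₁ p₂ h K _ _
  obtain ⟨hl⟩ := h
  rw [← Nat.card_prod]
  exact Nat.card_congr (((ptsEquiv X K).trans (prodEquiv hl)).trans
    ((ptsEquiv B K).prodCongr (ptsEquiv C K)).symm)

end Pool.Agent.J4H85.BC
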